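import Pool.Agent.Helper38.MR.Spec

set_option autoImplicit false

namespace Pool.Agent.Helper38.MR

open Classical in
lemma ci_pair (m l : ℕ) (u v : Fin m) (huv : u ≠ v) :
    (Finset.univ.filter fun χ : Fin m → Fin l => χ u = χ v).card * l ≤ l ^ m := by
  have h1 : ((Finset.univ.filter fun χ : Fin m → Fin l => χ u = χ v) ×ˢ
      (Finset.univ : Finset (Fin l))).card ≤ (Finset.univ : Finset (Fin m → Fin l)).card := by
    apply Finset.card_le_card_of_injOn (fun x => Function.update x.1 v x.2)
    · intro x _
      exact Finset.mem_coe.mpr (Finset.mem_univ _)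
    · intro x hx y hy hxy
      have hx1 : x.1 u = x.1 v := by
        have := Finset.mem_product.mp (Finset.mem_coe.mp hx)
        exact (Finset.mem_filter.mp this.1).2
      have hy1 : y.1 u = y.1 v := by
        have := Finset.mem_product.mp (Finset.mem_coe.mp hy)
        exact (Finset.mem_filter.mp this.1).2
      simp only at hxy
      have h2 : ∀ w, w ≠ v → x.1 w = y.1 w := by
        intro w hw
        have := congrFun hxy w
        rwa [Function.update_of_ne hw, Function.update_of_ne hw] at this
      have h3 : x.2 = y.2 := by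
        have := congrFun hxy v
        rwa [Function.update_self, Function.update_self] at this
      apply Prod.ext _ h3
      funext w
      by_cases hw : w = v
      · rw [hw, ← hx1, ← hy1]
        exact h2 u huv
      · exact h2 w hw
  rw [Finset.card_product, Finset.card_univ, Finset.card_univ, Fintype.card_fun, Fintype.card_fin,
    Fintype.card_fin] at h1
  exact h1

open Classical in
lemma ci_pairs {m : ℕ} (A : Finset (Fin m)) :
    2 * ((A ×ˢ A).filter fun p => p.1 < p.2).card ≤ A.card ^ 2 := by
  have h1 : (((A ×ˢ A).filter fun p => p.1 < p.2).image Prod.swap).card =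
      ((A ×ˢ A).filter fun p => p.1 < p.2).card :=
    Finset.card_image_of_injective _ Prod.swap_injective
  have h2 : Disjoint ((A ×ˢ A).filter fun p => p.1 < p.2)
      (((A ×ˢ A).filter fun p => p.1 < p.2).image Prod.swap) := by
    rw [Finset.disjoint_left]
    intro p hp hq
    rw [Finset.mem_image] at hq
    obtain ⟨q, hq, hqp⟩ := hq
    have h3 := (Finset.mem_filter.mp hp).2
    have h4 := (Finset.mem_filter.mp hq).2
    rw [← hqp] at h3
    simp only [Prod.fst_swap, Prod.snd_swap] at h3
    exact lt_asymm h3 h4
  have h5 : ((A ×ˢ A).filter fun p => p.1 < p.2) ∪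
      (((A ×ˢ A).filter fun p => p.1 < p.2).image Prod.swap) ⊆ A ×ˢ A := by
    intro p hp
    rw [Finset.mem_union] at hp
    rcases hp with hp | hp
    · exact (Finset.mem_filter.mp hp).1
    · rw [Finset.mem_image] at hp
      obtain ⟨q, hq, hqp⟩ := hp
      have h6 := Finset.mem_product.mp (Finset.mem_filter.mp hq).1
      rw [← hqp, Finset.mem_product]
      exact ⟨h6.2, h6.1⟩
  have h7 := Finset.card_le_card h5
  rw [Finset.card_union_of_disjoint h2, h1, Finset.card_product] at h7
  nlinarith

open Classical in
theorem CI : specCI := by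
  intro m l A hA
  set P := (A ×ˢ A).filter fun p => p.1 < p.2 with hP
  have hPA : 2 * P.card ≤ A.card ^ 2 := ci_pairs A
  have hsplit := Finset.card_filter_add_card_filter_not (s := (Finset.univ : Finset (Fin m → Fin l)))
    (fun χ : Fin m → Fin l => clq A ≤ mpt χ)
  rw [Finset.card_univ, Fintype.card_fun, Fintype.card_fin, Fintype.card_fin] at hsplit
  have hcov : (Finset.univ.filter fun χ : Fin m → Fin l => ¬ clq A ≤ mpt χ) ⊆
      P.biUnion fun p => Finset.univ.filter fun χ : Fin m → Fin l => χ p.1 = χ p.2 := by
    intro χ hχ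
    have h1 := (Finset.mem_filter.mp hχ).2
    rw [Pi.le_def] at h1
    push Not at h1
    obtain ⟨e, he⟩ := h1
    have h2 : clq A e = true ∧ mpt χ e = false := by
      rcases h3 : clq A e with _ | _ <;> rcases h4 : mpt χ e with _ | _ <;>
        rw [h3, h4] at he
      · exact absurd he (lt_irrefl _)
      · exact absurd he (by decide)
      · exact ⟨rfl, rfl⟩
      · exact absurd he (lt_irrefl _)
    have h3 : e.1.1 ∈ A ∧ e.1.2 ∈ A := by
      have := h2.1
      unfold clq at this
      exact of_decide_eq_true this
    have h4 : χ e.1.1 = χ e.1.2 := by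
      have := h2.2
      unfold mpt at this
      exact not_not.mp (of_decide_eq_false this)
    rw [Finset.mem_biUnion]
    refine ⟨e.1, ?_, Finset.mem_filter.mpr ⟨Finset.mem_univ _, h4⟩⟩
    rw [hP, Finset.mem_filter, Finset.mem_product]
    exact ⟨h3, e.2⟩
  have hcomp : (Finset.univ.filter fun χ : Fin m → Fin l => ¬ clq A ≤ mpt χ).card * l ≤
      P.card * l ^ m := by
    have h1 := Finset.card_le_card hcov
    have h2 := le_trans h1 Finset.card_biUnion_le
    calc (Finset.univ.filter fun χ : Fin m → Fin l => ¬ clq A ≤ mpt χ).card * l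
        ≤ (∑ p ∈ P, (Finset.univ.filter fun χ : Fin m → Fin l => χ p.1 = χ p.2).card) * l :=
          Nat.mul_le_mul_right l h2
      _ = ∑ p ∈ P, (Finset.univ.filter fun χ : Fin m → Fin l => χ p.1 = χ p.2).card * l :=
          Finset.sum_mul _ _ _
      _ ≤ ∑ _p ∈ P, l ^ m := by
          apply Finset.sum_le_sum
          intro p hp
          apply ci_pair
          rw [hP, Finset.mem_filter] at hp
          exact ne_of_lt hp.2
      _ = P.card * l ^ m := by rw [Finset.sum_const, smul_eq_mul]
  rcases Nat.eq_zero_or_pos l with hl | hl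
  · -- `l = 0`
    subst hl
    have hA0 : A.card = 0 := by
      have : A.card ^ 2 = 0 := Nat.le_zero.mp hA
      exact pow_eq_zero_iff (two_ne_zero) |>.mp this
    have hP0 : P.card = 0 := by
      rw [hA0] at hPA
      omega
    have hPe : P = ∅ := Finset.card_eq_zero.mp hP0
    rw [hPe, Finset.biUnion_empty] at hcov
    have h0 : (Finset.univ.filter fun χ : Fin m → Fin 0 => ¬ clq A ≤ mpt χ).card = 0 := by
      rw [Finset.card_eq_zero]
      exact Finset.subset_empty.mp hcov
    omega
  · have h1 : 2 * (Finset.univ.filter fun χ : Fin m → Fin l => ¬ clq A ≤ mpt χ).card ≤ l ^ m := by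
      apply Nat.le_of_mul_le_mul_right _ hl
      calc 2 * (Finset.univ.filter fun χ : Fin m → Fin l => ¬ clq A ≤ mpt χ).card * l
          = 2 * ((Finset.univ.filter fun χ : Fin m → Fin l => ¬ clq A ≤ mpt χ).card * l) := by ring
        _ ≤ 2 * (P.card * l ^ m) := Nat.mul_le_mul_left 2 hcomp
        _ = (2 * P.card) * l ^ m := by ring
        _ ≤ l * l ^ m := Nat.mul_le_mul_right _ (le_trans hPA hA)
        _ = l ^ m * l := by ring
    omega

end Pool.Agent.Helper38.MR
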